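import Pool.Agent.K3h42.PH.Neg
import Pool.Agent.K3h42.PH.Pos

/-!
# Which constants are possible in Philippon's conjecture

For `B = 3` and `α + ε ≤ 4 / 3` (and for `B ≤ 2`, a starting result) the inequality of Q1 fails for every
`β`; under the abc conjecture it holds for ALL other triples `(B, α, ε)` of the range of Q1. So the set
of the admissible triples is, under abc, exactly `B ≥ 4`, or `B = 3` and `α + ε > 4 / 3`.

Q1 itself is equivalent to the weak abc conjecture (`c ≤ κ R ^ K` for some `K`).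

Failure for `B = 3`: with `u = 3 ^ i`, `v = 5 ^ j`, `a, b = (3 u ∓ v) / 2`, `c, d = (u ± v) / 2` one has
`a c ^ 3 - b d ^ 3 = u ^ 3 v`, which gives `α + ε ≥ 4 / 3` for `x = - a / b`, `y = c / d`, `u → ∞`,
`v / u ∈ (1 / 2, 1)`. On the line `α + ε = 4 / 3` one moves large cubes `11 ^ (3 k) ∣ a`, `7 ^ (3 k) ∣ b`
from `x` to `y`; `i` and `j` are found by congruences and by the density of the numbers
`r log 3 - q log 5`.
-/

set_option autoImplicit false

namespace Pool.Agent.Results.MP_05f553_nt.AdmissibleConstants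

open Pool.Agent.H78R2.Phil Pool.Agent.K3h42.PH

/-- The logarithmic height `log max (|a|, |b|)` of `r = a / b` (lowest terms). -/
noncomputable def height (r : ℚ) : ℝ := Real.log (max |((r.num : ℤ) : ℝ)| ((r.den : ℕ) : ℝ))

/-- The inequality of Q1 holds with the constants `B, α, ε` and some `β ≥ 0`, for all nonzero rational
numbers `x, y` with `x y ^ B ≠ 1, -1`; the sums are over the primes which divide the numerator of
`x y ^ B + 1`. -/
def Admissible (B : ℕ) (α ε : ℝ) : Prop :=
  ∃ β : ℝ, 0 ≤ β ∧ ∀ x y : ℚ, x ≠ 0 → y ≠ 0 → x * y ^ B ≠ 1 → x * y ^ B ≠ -1 →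
    -(∑ p ∈ (x * y ^ B + 1).num.natAbs.primeFactors,
        Real.log ((padicNorm p (x * y ^ B + 1) : ℚ) : ℝ))
      ≤ α * (B : ℝ) * height x + ε * (B : ℝ) * height y
        + (B : ℝ) * (α * (B : ℝ) + ε) *
            (β + ∑ p ∈ (x * y ^ B + 1).num.natAbs.primeFactors, Real.log (p : ℝ))

/-- The triples `(B, α, ε)` allowed in Q1. -/
def InRange (B : ℕ) (α ε : ℝ) : Prop := 0 < B ∧ 1 ≤ α ∧ 0 < ε ∧ ε < 1 / 2

/-- The abc conjecture, `R(n)` being the product of the primes dividing `n`. -/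
def Abc : Prop :=
  ∀ δ : ℝ, 0 < δ → ∃ κ : ℝ, ∀ a b c : ℕ, 0 < a → 0 < b → Nat.Coprime a b → a + b = c →
    (c : ℝ) ≤ κ * ((∏ p ∈ (a * b * c).primeFactors, p : ℕ) : ℝ) ^ (1 + δ)

/-- The weak abc conjecture: `c ≤ κ R(abc) ^ K` for some constants `K`, `κ`. -/
def WeakAbc : Prop :=
  ∃ K κ : ℝ, ∀ a b c : ℕ, 0 < a → 0 < b → Nat.Coprime a b → a + b = c →
    (c : ℝ) ≤ κ * ((∏ p ∈ (a * b * c).primeFactors, p : ℕ) : ℝ) ^ K

lemma admissible_iff (B : ℕ) (α ε : ℝ) :
    Admissible B α ε ↔ ∃ β : ℝ, 0 ≤ β ∧ Ineq ε α β B := by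
  have hne : ∀ x y : ℚ, x * y ^ B ≠ -1 ↔ x * y ^ B + 1 ≠ 0 := fun x y => by
    rw [Ne, Ne, not_iff_not]
    constructor
    · intro h; rw [h]; norm_num
    · intro h; linarith
  unfold Admissible Ineq
  constructor
  · rintro ⟨β, hβ, h⟩
    refine ⟨β, hβ, fun x y hx hy h1 h0 => ?_⟩
    have := h x y hx hy h1 ((hne x y).2 h0)
    rw [S_eq h0, finsum_mem_coe_finset, finsum_mem_coe_finset]
    unfold height at this
    unfold ht
    linarith
  · rintro ⟨β, hβ, h⟩
    refine ⟨β, hβ, fun x y hx hy h1 h0' => ?_⟩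
    have h0 := (hne x y).1 h0'
    have := h x y hx hy h1 h0
    rw [S_eq h0, finsum_mem_coe_finset, finsum_mem_coe_finset] at this
    unfold ht at this
    unfold height
    linarith

/-- **The admissible constants in Philippon's conjecture.**
(1) If the inequality of Q1 holds with the constants `B, α, ε` and some `β`, then `B ≥ 4`, or `B = 3` and
`α + ε > 4 / 3`.
(2) Under the abc conjecture the converse is true: the inequality holds for all these constants.
(3) Q1 is equivalent to the weak abc conjecture. -/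
theorem result :
    (∀ (B : ℕ) (α ε : ℝ), InRange B α ε → Admissible B α ε →
      4 ≤ B ∨ (B = 3 ∧ 4 / 3 < α + ε)) ∧
    (Abc → ∀ (B : ℕ) (α ε : ℝ), InRange B α ε →
      (Admissible B α ε ↔ 4 ≤ B ∨ (B = 3 ∧ 4 / 3 < α + ε))) ∧
    ((∃ (B : ℕ) (α ε : ℝ), InRange B α ε ∧ Admissible B α ε) ↔ WeakAbc) := by
  have part1 : ∀ (B : ℕ) (α ε : ℝ), InRange B α ε → Admissible B α ε →
      4 ≤ B ∨ (B = 3 ∧ 4 / 3 < α + ε) := by
    rintro B α ε ⟨hB, hα, hε, hε1⟩ hadm
    obtain ⟨β, hβ, h⟩ := (admissible_iff B α ε).1 hadm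
    by_contra hcon
    push Not at hcon
    obtain ⟨hB4, hs⟩ := hcon
    rcases (by omega : B ≤ 2 ∨ B = 3) with h2 | h3
    · exact not_ineq hε (by linarith) hB h2 h
    · subst h3
      exact not_ineq_three hε hε1 (by linarith) (hs rfl) h
  refine ⟨part1, fun habc B α ε hr => ⟨part1 B α ε hr, ?_⟩, ?_⟩
  · obtain ⟨hB, hα, hε, hε1⟩ := hr
    intro hcase
    have hB3 : 3 ≤ B := by rcases hcase with h | ⟨h, -⟩ <;> omega
    have hBR : (3 : ℝ) ≤ B := by exact_mod_cast hB3
    -- the strict inequality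
    have hgap : 0 < (α * B - 1) * ((B : ℝ) - 2) - (1 - ε) * B := by
      rcases hcase with h | ⟨h, hs⟩
      · have h4 : (4 : ℝ) ≤ B := by exact_mod_cast h
        have e1 : (B : ℝ) - 1 ≤ α * B - 1 := by nlinarith
        have e2 : ((B : ℝ) - 1) * (B - 2) ≤ (α * B - 1) * ((B : ℝ) - 2) :=
          mul_le_mul_of_nonneg_right e1 (by linarith)
        nlinarith
      · subst h
        push_cast
        linarith
    set G : ℝ := (α * B - 1) * ((B : ℝ) - 2) - (1 - ε) * B with hG
    set D : ℝ := 2 * ((1 - ε) * B + (α * B - 1)) with hD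
    have hαB : 0 < α * B - 1 := by nlinarith
    have h1ε : 0 < 1 - ε := by linarith
    have hD0 : 0 < D := by rw [hD]; positivity
    set δ : ℝ := min (1 / 4) (G / D) with hδdef
    have hδ : 0 < δ := lt_min (by norm_num) (by positivity)
    have hδ1 : δ ≤ 1 / 4 := min_le_left _ _
    have hδD : δ * D ≤ G := by
      have : δ ≤ G / D := min_le_right _ _
      rwa [le_div_iff₀ hD0] at this
    obtain ⟨κ, h⟩ := habc δ hδ
    have h' : AbcWith (1 + δ) (max κ 1) := by
      intro a b c ha hb hab hc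
      refine (h a b c ha hb hab hc).trans ?_
      exact mul_le_mul_of_nonneg_right (le_max_left _ _) (by positivity)
    have hlk : 0 ≤ Real.log (max κ 1) := Real.log_nonneg (le_max_right _ _)
    refine (admissible_iff B α ε).2 ⟨Real.log 2 + α * B * Real.log (max κ 1), ?_,
      ineq_of hδ hδ1 (le_max_right _ _) h' hB3 hα hε (by linarith) ?_⟩
    · have : 0 < Real.log 2 := Real.log_pos (by norm_num)
      positivity
    · rw [hD] at hδD
      rw [hG] at hδD
      linarith
  · constructor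
    · rintro ⟨B, α, ε, ⟨hB, hα, hε, hε1⟩, hadm⟩
      obtain ⟨β, hβ, h⟩ := (admissible_iff B α ε).1 hadm
      exact ⟨_, _, abc_of_ineq hε (by linarith) (by linarith) hβ hB h⟩
    · rintro ⟨K, κ, h⟩
      have h' : AbcWith (max K 1) (max κ 1) := by
        intro a b c ha hb hab hc
        refine (h a b c ha hb hab hc).trans ?_
        have hR : (1 : ℝ) ≤ ((∏ p ∈ (a * b * c).primeFactors, p : ℕ) : ℝ) := by
          exact_mod_cast Pool.Agent.H78R2.Abc.rad_pos (a * b * c)
        have e1 : ((∏ p ∈ (a * b * c).primeFactors, p : ℕ) : ℝ) ^ K ≤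
            ((∏ p ∈ (a * b * c).primeFactors, p : ℕ) : ℝ) ^ (max K 1) :=
          Real.rpow_le_rpow_of_exponent_le hR (le_max_left _ _)
        exact mul_le_mul (le_max_left _ _) e1 (by positivity)
          (le_trans zero_le_one (le_max_right _ _))
      obtain ⟨B, hB⟩ := exists_nat_gt (8 * max K 1)
      have hB0 : (0 : ℝ) < B := by
        have : (1 : ℝ) ≤ max K 1 := le_max_right _ _
        linarith
      refine ⟨B, 1, 1 / 4, ⟨by exact_mod_cast hB0, le_refl _, by norm_num, by norm_num⟩,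
        (admissible_iff B 1 (1 / 4)).2 ⟨Real.log (max κ 1), Real.log_nonneg (le_max_right _ _),
          ineq_of_abc (le_max_right _ _) (le_max_right _ _) h' (by norm_num) (by norm_num) ?_⟩⟩
      linarith

end Pool.Agent.Results.MP_05f553_nt.AdmissibleConstants
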