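import Pool.Agent.K3h70.PH.Main
import Pool.Agent.K3h70.PH.Rationals

/-!
# Philippon's inequality for almost all coefficients

Let `α ≥ 1`, `β ≥ 0`, `ε < 1 / 2` and `ε B ≥ 4`. At most
`C Y ^ δ min (Y ^ (3 / (2 α)), X ^ (3 / 2) Y ^ (1 / (α B)))` pairs `(x, y)` with `H(x) ≤ X` and `H(y) ≤ Y`
violate Philippon's inequality. So for every `A < α B / 2`, almost all `x` have the property that the
inequality holds for ALL `y` with `H(y) ≤ H(x) ^ A`.

The proof: the coefficients `x` of the exceptional pairs with a given numerator `N` of `x y ^ B + 1`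
form an almost multiplicative Sidon set: for two such pairs with a given quotient `x / x'`, the quotient
`y / y'` is one of few roots of a congruence modulo `N`, and the quotient of the points `x y ^ B` and
`N` determine these points up to few possibilities, by the divisor bound. Then the theorem of Kővári,
Sós and Turán is applied to the graph of the numerators and denominators of the `x`.
-/

set_option autoImplicit false

namespace Pool.Agent.Results.MP_05f553_nt.AlmostAllCoefficients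

open Pool.Agent.K3h70.PH Pool.Agent.TH201.PH

/-- The height `max (|a|, |b|)` of `r = a / b` (lowest terms). -/
noncomputable def height (r : ℚ) : ℝ := max |((r.num : ℤ) : ℝ)| ((r.den : ℕ) : ℝ)

/-- The inequality of the question for the pair `(x, y)`; the sums are over the primes which divide
the numerator of `x y ^ B + 1`. -/
def Holds (B : ℕ) (α β ε : ℝ) (x y : ℚ) : Prop :=
  -(∑ p ∈ (x * y ^ B + 1).num.natAbs.primeFactors,
      Real.log ((padicNorm p (x * y ^ B + 1) : ℚ) : ℝ))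
    ≤ α * (B : ℝ) * Real.log (height x) + ε * (B : ℝ) * Real.log (height y)
      + (B : ℝ) * (α * (B : ℝ) + ε) *
          (β + ∑ p ∈ (x * y ^ B + 1).num.natAbs.primeFactors, Real.log (p : ℝ))

/-- The pair `(x, y)` is a pair of the question which violates the inequality. -/
def Exceptional (B : ℕ) (α β ε : ℝ) (x y : ℚ) : Prop :=
  x ≠ 0 ∧ y ≠ 0 ∧ x * y ^ B ≠ 1 ∧ x * y ^ B ≠ -1 ∧ ¬ Holds B α β ε x y

lemma height_eq (r : ℚ) : height r = (H r : ℝ) := (H_cast r).symm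

lemma rad_eq (n : ℕ) : Pool.Agent.H78R2.Abc.rad n = Pool.Agent.H785R2.ABC.rad n := rfl

lemma bad {B : ℕ} {α β ε : ℝ} {t : ℚ × ℚ} (h : Exceptional B α β ε t.1 t.2) :
    Bad B α β ε t := by
  obtain ⟨hx, hy, -, h2, h4⟩ := h
  have hN : t.1 * t.2 ^ B + 1 ≠ 0 := fun h => h2 (eq_neg_of_add_eq_zero_left h)
  refine ⟨hx, hy, hN, ?_⟩
  unfold Holds at h4
  rw [not_le] at h4
  have e1 := Pool.Agent.H78R2.Phil.lhs_eq hN
  have e2 := Pool.Agent.H78R2.Phil.rad_sum hN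
  rw [Pool.Agent.H78R2.Phil.S_eq hN, finsum_mem_coe_finset] at e1 e2
  rw [e1, e2, rad_eq, height_eq, height_eq] at h4
  exact h4

/-- a set all finite subsets of which are bounded -/
lemma ncard_le {S : Set (ℚ × ℚ)} {c : ℝ} (h : ∀ T : Finset (ℚ × ℚ), ↑T ⊆ S → (T.card : ℝ) ≤ c) :
    S.Finite ∧ ((S.ncard : ℕ) : ℝ) ≤ c := by
  have hfin : S.Finite := by
    by_contra hinf
    obtain ⟨T, hT, hcard⟩ := Set.Infinite.exists_subset_card_eq hinf (⌊c⌋₊ + 1)
    have h3 := h T hT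
    rw [hcard] at h3
    have h4 := Nat.lt_floor_add_one c
    push_cast at h3
    linarith
  refine ⟨hfin, ?_⟩
  rw [Set.ncard_eq_toFinset_card _ hfin]
  exact h _ (by rw [Set.Finite.coe_toFinset])

/-- **Theorem.** Let `α ≥ 1`, `β ≥ 0`, `ε < 1 / 2` and `ε B ≥ 4`.
(1) For `δ > 0` there is `C` such that for all `X, Y ≥ 1` at most
`C Y ^ δ min (Y ^ (3 / (2 α)), X ^ (3 / 2) Y ^ (1 / (α B)))` pairs `(x, y)` with `H(x) ≤ X` and
`H(y) ≤ Y` are exceptional.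
(2) Hence for `A < α B / 2` there are `η > 0` and `C` such that for all `X ≥ 1`, for all nonzero `x` with
`H(x) ≤ X` outside a subset of proportion at most `C X ^ (- η)`, the inequality of the question holds for
ALL `y` of the question with `H(y) ≤ X ^ A`. -/
theorem result (B : ℕ) (α β ε : ℝ) (hα : 1 ≤ α) (hβ : 0 ≤ β) (hε : ε < 1 / 2) (hB : 4 ≤ ε * B) :
    (∀ δ : ℝ, 0 < δ → ∃ C : ℝ, ∀ X Y : ℝ, 1 ≤ X → 1 ≤ Y →
      {t : ℚ × ℚ | Exceptional B α β ε t.1 t.2 ∧ height t.1 ≤ X ∧ height t.2 ≤ Y}.Finite ∧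
      (({t : ℚ × ℚ | Exceptional B α β ε t.1 t.2 ∧ height t.1 ≤ X ∧ height t.2 ≤ Y}.ncard : ℕ) : ℝ) ≤
        C * Y ^ δ * min (Y ^ (3 / (2 * α))) (X ^ ((3 : ℝ) / 2) * Y ^ (1 / (α * B)))) ∧
    ∀ A : ℝ, A < α * B / 2 → ∃ η C : ℝ, 0 < η ∧ ∀ X : ℝ, 1 ≤ X →
      (({x : ℚ | x ≠ 0 ∧ height x ≤ X ∧
          ∃ y : ℚ, Exceptional B α β ε x y ∧ height y ≤ X ^ A}.ncard : ℕ) : ℝ) ≤
        C * X ^ (-η) * (({x : ℚ | x ≠ 0 ∧ height x ≤ X}.ncard : ℕ) : ℝ) := by
  have hε0 : 0 ≤ ε := by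
    by_contra h
    have : (0 : ℝ) ≤ B := Nat.cast_nonneg B
    nlinarith
  have hB5 : 5 ≤ B := by
    by_contra h
    have h1 : (B : ℝ) ≤ 4 := by exact_mod_cast (by omega : B ≤ 4)
    nlinarith
  have hB0 : (0 : ℝ) < B := by exact_mod_cast (by omega : 0 < B)
  have hα0 : 0 < α := by linarith
  have part2 : ∀ δ : ℝ, 0 < δ → ∃ C : ℝ, 0 < C ∧ ∀ X Y : ℝ, 1 ≤ X → 1 ≤ Y →
      {t : ℚ × ℚ | Exceptional B α β ε t.1 t.2 ∧ height t.1 ≤ X ∧ height t.2 ≤ Y}.Finite ∧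
      (({t : ℚ × ℚ | Exceptional B α β ε t.1 t.2 ∧ height t.1 ≤ X ∧ height t.2 ≤ Y}.ncard : ℕ) : ℝ) ≤
        C * X ^ ((3 : ℝ) / 2) * Y ^ (1 / (α * B) + δ) := by
    intro δ hδ
    obtain ⟨C, hC, h⟩ := count2 B hB5 α β ε δ hα hβ hε0 hB hδ
    refine ⟨C, hC, fun X Y hX hY => ncard_le fun T hT => h X Y T hX hY fun t ht => ?_⟩
    obtain ⟨h1, h2, h3⟩ := hT ht
    rw [height_eq] at h2 h3
    exact ⟨bad h1, h2, h3⟩
  refine ⟨fun δ hδ => ?_, fun A hA => ?_⟩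
  · obtain ⟨C₁, hC₁, h1⟩ := count1 B hB5 α β ε δ hα hβ hε0 hB hδ
    obtain ⟨C₂, hC₂, h2⟩ := part2 δ hδ
    refine ⟨max C₁ C₂, fun X Y hX hY => ⟨(h2 X Y hX hY).1, ?_⟩⟩
    have hY0 : 0 < Y := by linarith
    have hX0 : 0 < X := by linarith
    have e1 : (({t : ℚ × ℚ | Exceptional B α β ε t.1 t.2 ∧ height t.1 ≤ X ∧
        height t.2 ≤ Y}.ncard : ℕ) : ℝ) ≤ C₁ * Y ^ (3 / (2 * α) + δ) := by
      refine (ncard_le fun T hT => h1 Y T hY fun t ht => ?_).2
      obtain ⟨g1, -, g2⟩ := hT ht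
      rw [height_eq] at g2
      exact ⟨bad g1, g2⟩
    have e2 := (h2 X Y hX hY).2
    rw [mul_min_of_nonneg _ _ (by positivity)]
    refine le_min (e1.trans ?_) (e2.trans ?_)
    · rw [Real.rpow_add hY0]
      calc C₁ * (Y ^ (3 / (2 * α)) * Y ^ δ) ≤ max C₁ C₂ * (Y ^ (3 / (2 * α)) * Y ^ δ) :=
            mul_le_mul_of_nonneg_right (le_max_left _ _) (by positivity)
        _ = _ := by ring
    · rw [Real.rpow_add hY0]
      calc C₂ * X ^ ((3 : ℝ) / 2) * (Y ^ (1 / (α * B)) * Y ^ δ)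
          = C₂ * (X ^ ((3 : ℝ) / 2) * (Y ^ (1 / (α * B)) * Y ^ δ)) := by ring
        _ ≤ max C₁ C₂ * (X ^ ((3 : ℝ) / 2) * (Y ^ (1 / (α * B)) * Y ^ δ)) :=
            mul_le_mul_of_nonneg_right (le_max_right _ _) (by positivity)
        _ = _ := by ring
  · -- the exponent
    obtain ⟨A', hA'⟩ : ∃ A' : ℝ, A' = max A 0 := ⟨_, rfl⟩
    have hA0 : 0 ≤ A' := by rw [hA']; exact le_max_right _ _
    have hAA : A ≤ A' := by rw [hA']; exact le_max_left _ _
    have hA1 : A' < α * B / 2 := by rw [hA']; exact max_lt hA (by positivity)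
    have hαB : 0 < α * B := by positivity
    have hlt : A' / (α * B) < 1 / 2 := by
      rw [div_lt_iff₀ hαB]
      linarith
    obtain ⟨η, hη⟩ : ∃ η : ℝ, η = (1 / 2 - A' / (α * B)) / 2 := ⟨_, rfl⟩
    have hη0 : 0 < η := by rw [hη]; linarith
    obtain ⟨C, hC, h⟩ := part2 (η / (A' + 1)) (by positivity)
    refine ⟨η, 16 * C, hη0, fun X hX => ?_⟩
    have hX0 : 0 < X := by linarith
    have hY : 1 ≤ X ^ A' := Real.one_le_rpow hX hA0
    obtain ⟨hfin, hle⟩ := h X (X ^ A') hX hY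
    have h1 : ({x : ℚ | x ≠ 0 ∧ height x ≤ X ∧
        ∃ y : ℚ, Exceptional B α β ε x y ∧ height y ≤ X ^ A}.ncard : ℕ) ≤
        {t : ℚ × ℚ | Exceptional B α β ε t.1 t.2 ∧ height t.1 ≤ X ∧
          height t.2 ≤ X ^ A'}.ncard := by
      refine (Set.ncard_le_ncard ?_ (hfin.image Prod.fst)).trans (Set.ncard_image_le hfin)
      rintro x ⟨-, h2, y, h3, h4⟩
      exact ⟨(x, y), ⟨h3, h2, h4.trans (Real.rpow_le_rpow_of_exponent_le hX hAA)⟩, rfl⟩
    have h2 : (({x : ℚ | x ≠ 0 ∧ height x ≤ X ∧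
        ∃ y : ℚ, Exceptional B α β ε x y ∧ height y ≤ X ^ A}.ncard : ℕ) : ℝ) ≤
        C * X ^ ((3 : ℝ) / 2) * (X ^ A') ^ (1 / (α * B) + η / (A' + 1)) :=
      le_trans (by exact_mod_cast h1) hle
    have h3 : X ^ ((3 : ℝ) / 2) * (X ^ A') ^ (1 / (α * B) + η / (A' + 1)) ≤ X ^ (-η) * X ^ 2 := by
      rw [← Real.rpow_mul hX0.le, ← Real.rpow_add hX0, ← Real.rpow_natCast X 2,
        ← Real.rpow_add hX0]
      apply Real.rpow_le_rpow_of_exponent_le hX
      have e1 : A' * (η / (A' + 1)) ≤ η := by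
        rw [mul_div_assoc', div_le_iff₀ (by linarith)]
        nlinarith
      have e2 : A' * (1 / (α * B)) = A' / (α * B) := by ring
      push_cast
      rw [mul_add, e2]
      linarith
    have h4 := many_rationals X hX
    have h5 : {x : ℚ | x ≠ 0 ∧ height x ≤ X} = {x : ℚ | x ≠ 0 ∧ (H x : ℝ) ≤ X} := by
      ext x
      simp only [Set.mem_ofPred_eq, height_eq]
    rw [h5]
    calc (({x : ℚ | x ≠ 0 ∧ height x ≤ X ∧
        ∃ y : ℚ, Exceptional B α β ε x y ∧ height y ≤ X ^ A}.ncard : ℕ) : ℝ)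
        ≤ C * (X ^ ((3 : ℝ) / 2) * (X ^ A') ^ (1 / (α * B) + η / (A' + 1))) := by
          rw [← mul_assoc]; exact h2
      _ ≤ C * (X ^ (-η) * X ^ 2) := mul_le_mul_of_nonneg_left h3 hC.le
      _ = 16 * C * X ^ (-η) * (X ^ 2 / 16) := by ring
      _ ≤ 16 * C * X ^ (-η) * (({x : ℚ | x ≠ 0 ∧ (H x : ℝ) ≤ X}.ncard : ℕ) : ℝ) :=
          mul_le_mul_of_nonneg_left h4 (by positivity)

end Pool.Agent.Results.MP_05f553_nt.AlmostAllCoefficients
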