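import Mathlib
import Pool.Agent.K3h2.PA.Main
import Pool.Agent.Results.MP_f5a5f7_nt.LempelZivNumbers

/-!
# Philippon's inequality for compressible pairs

Let `n ≥ 3`. For all `x ≠ 0` and `y = u / v` such that `u` and `v` and the factors `Z i` of the
numerator `N = n₀ w ∏ Z i ^ e i` of `x y ^ n + 1` are compressible, the inequality of Q1 holds with
`B = n`, some `α`, `β` and every `ε ≥ 0`. The only condition on `x` is the one on the numerator of
`x y ^ n + 1`.

An integer is compressible if it is a sum of `q` products of an `S`-unit, a small integer and an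
integer with an expansion, in one of finitely many bases, of at most `z` Lempel-Ziv phrases (a phrase is
a single letter, or a copy of a block which begins further to the left and may overlap the phrase). For
words of one letter these are the sums of `q` `S`-units with small coefficients.

If `h(x)` is at least a small multiple of `h(y)`, then the inequality is trivial for large `α`. If
it is smaller, then the numerator and the denominator of `x` are small coefficients, and (after the
common factors of `x` and `y ^ n` have been divided out, which leads to small common denominators) the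
Subspace theorem applies.
-/

set_option autoImplicit false

open Pool.Agent.Results.MP_f5a5f7_nt.SparseNumbers (IsSUnit)
open Pool.Agent.Results.MP_f5a5f7_nt.LempelZivNumbers (IsCompressible)

namespace Pool.Agent.Results.MP_05f553_nt.CompressiblePairs

/-- the height `H(r) = max (|a|, |b|)` of a rational number `r = a / b` (lowest terms) -/
noncomputable def H (r : ℚ) : ℝ := max |(r.num : ℝ)| (r.den : ℝ)

/-- Philippon's inequality with the constants `B = n`, `α`, `β`, `ε`, for `x`, `y` -/
def Holds (n : ℕ) (α β ε : ℝ) (x y : ℚ) : Prop :=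
  -(∑ p ∈ (x * y ^ n + 1).num.natAbs.primeFactors,
      Real.log ((padicNorm p (x * y ^ n + 1) : ℚ) : ℝ))
    ≤ α * n * Real.log (H x) + ε * n * Real.log (H y) + n * (α * n + ε) *
      (β + ∑ p ∈ (x * y ^ n + 1).num.natAbs.primeFactors, Real.log (p : ℝ))

/-- The numerator and the denominator of `y` are compressible, and the numerator of `x y ^ n + 1` is a
product `n₀ w ∏ Z i ^ e i` with an integer `n₀` of absolute value at most `A H(y) ^ δ`, an integer `w`
which is an `S`-unit, and compressible integers `Z i` with `log |Z i| ≤ A (1 + ∑ log p)`, the sum over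
the primes `p` dividing the numerator of `x y ^ n + 1` (for instance if no `Z i` is divisible by the
`k`-th power of a prime, for a fixed `k`). Compressible: a sum of `q` products of an `S`-unit, an integer
of absolute value at most `A H(y) ^ δ`, and the value in base `b i` of a word with `z` phrases and
letters of absolute value at most `B`, of length at most `A (1 + log H(y)) / log b i`. -/
def IsCompressiblePair (S : Finset ℕ) {q : ℕ} (b : Fin q → ℕ) (z : ℕ) (B : ℤ) (A δ : ℝ) (n : ℕ)
    {r : ℕ} (e : Fin r → ℕ) (x y : ℚ) : Prop :=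
  IsCompressible S b z B (A * H y ^ δ) (A * (1 + Real.log (H y))) (y.num : ℚ) ∧
    IsCompressible S b z B (A * H y ^ δ) (A * (1 + Real.log (H y))) (y.den : ℚ) ∧
    ∃ (n₀ w : ℤ) (Z : Fin r → ℤ), |(n₀ : ℝ)| ≤ A * H y ^ δ ∧ IsSUnit S (w : ℚ) ∧
      (∀ i, IsCompressible S b z B (A * H y ^ δ) (A * (1 + Real.log (H y))) (Z i : ℚ)) ∧
      (x * y ^ n + 1).num = n₀ * w * ∏ i, Z i ^ e i ∧
      ∀ i, Real.log |(Z i : ℝ)| ≤
        A * (1 + ∑ p ∈ (x * y ^ n + 1).num.natAbs.primeFactors, Real.log (p : ℝ))

/-- the left side of the inequality is the logarithm of the numerator -/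
lemma lhs_eq {t : ℚ} (ht : t ≠ 0) :
    -(∑ p ∈ t.num.natAbs.primeFactors, Real.log ((padicNorm p t : ℚ) : ℝ)) =
      Real.log |(t.num : ℝ)| := by
  have hn : t.num.natAbs ≠ 0 := Int.natAbs_ne_zero.2 (Rat.num_ne_zero.2 ht)
  have h1 : |(t.num : ℝ)| = (t.num.natAbs : ℝ) := by
    rw [Nat.cast_natAbs, Int.cast_abs]
  rw [h1, Real.log_nat_eq_sum_factorization, Finsupp.sum, Nat.support_factorization,
    ← Finset.sum_neg_distrib]
  refine Finset.sum_congr rfl fun p hp => ?_
  have hpp : p.Prime := Nat.prime_of_mem_primeFactors hp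
  have : Fact p.Prime := ⟨hpp⟩
  have hdvd : p ∣ t.num.natAbs := Nat.dvd_of_mem_primeFactors hp
  have hden : ¬ p ∣ t.den := fun h =>
    (Nat.Prime.coprime_iff_not_dvd hpp).1 (Nat.Coprime.coprime_dvd_left hdvd t.reduced) h
  have h2 : padicValRat p t = (t.num.natAbs.factorization p : ℤ) := by
    rw [padicValRat, padicValInt, padicValNat.eq_zero_of_not_dvd hden, Nat.cast_zero, sub_zero,
      Nat.factorization_def _ hpp]
  rw [padicNorm.eq_zpow_of_nonzero ht, h2]
  push_cast
  rw [Real.log_zpow]
  push_cast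
  ring

/-- the trivial upper bound for the numerator -/
lemma num_le {x y : ℚ} (hx : x ≠ 0) (hy : y ≠ 0) (n : ℕ) (h : x * y ^ n + 1 ≠ 0) :
    Real.log |((x * y ^ n + 1).num : ℝ)| ≤ Real.log (H x) + n * Real.log (H y) + Real.log 2 := by
  have hHx : 1 ≤ H x := Pool.Agent.K3h2.PA.one_le_max_den x
  have hHy : 1 ≤ H y := Pool.Agent.K3h2.PA.one_le_max_den y
  have hac : IsCoprime x.num (x.den : ℤ) := by
    rw [Int.isCoprime_iff_nat_coprime]
    simpa using x.reduced
  have huv : IsCoprime y.num (y.den : ℤ) := by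
    rw [Int.isCoprime_iff_nat_coprime]
    simpa using y.reduced
  obtain ⟨g, s0, s1, U, V, d1, d2, hg, -, -, h0, h1, hcop, -⟩ :=
    Pool.Agent.K3h2.PA.arith n x.num x.den y.num y.den (Rat.num_ne_zero.2 hx)
      (by exact_mod_cast x.pos.ne') (Rat.num_ne_zero.2 hy) (by exact_mod_cast y.pos.ne') hac huv
  have hN := Pool.Agent.K3h2.PA.num_eq hg h0 h1 hcop
  have hN0 : (x * y ^ n + 1).num ≠ 0 := Rat.num_ne_zero.2 h
  have h2 : g * (x * y ^ n + 1).num = x.num * y.num ^ n + x.den * (y.den : ℤ) ^ n := by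
    rw [hN, h0, h1]
    ring
  have h3 : |((x * y ^ n + 1).num : ℝ)| ≤ 2 * (H x * H y ^ n) := by
    have e1 : (g : ℝ) * ((x * y ^ n + 1).num : ℝ) =
        (x.num : ℝ) * (y.num : ℝ) ^ n + (x.den : ℝ) * (y.den : ℝ) ^ n := by
      exact_mod_cast h2
    have e2 : |((x * y ^ n + 1).num : ℝ)| ≤ |(g : ℝ) * ((x * y ^ n + 1).num : ℝ)| := by
      rw [abs_mul, abs_of_pos (by exact_mod_cast hg : (0 : ℝ) < g)]
      exact le_mul_of_one_le_left (abs_nonneg _) (by exact_mod_cast hg)
    rw [e1] at e2
    have e3 : |(x.num : ℝ) * (y.num : ℝ) ^ n| ≤ H x * H y ^ n := by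
      rw [abs_mul, abs_pow]
      exact mul_le_mul (le_max_left _ _) (pow_le_pow_left₀ (abs_nonneg _) (le_max_left _ _) _)
        (by positivity) (by linarith)
    have e4 : |(x.den : ℝ) * (y.den : ℝ) ^ n| ≤ H x * H y ^ n := by
      rw [abs_mul, abs_pow, Nat.abs_cast, Nat.abs_cast]
      exact mul_le_mul (le_max_right _ _) (pow_le_pow_left₀ (Nat.cast_nonneg _)
        (le_max_right _ _) _) (by positivity) (by linarith)
    have e5 := abs_add_le ((x.num : ℝ) * (y.num : ℝ) ^ n) ((x.den : ℝ) * (y.den : ℝ) ^ n)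
    linarith
  have h4 := Real.log_le_log (abs_pos.2 (by exact_mod_cast hN0)) h3
  rw [Real.log_mul two_ne_zero (by positivity), Real.log_mul (by positivity) (by positivity),
    Real.log_pow] at h4
  linarith

/-- **Main theorem.** Let `S` be a finite set of primes, `b i ≥ 2` bases, `z`, `B ≥ 0`, `e i ≥ 1`
integers, `A ≥ 0` real, `n ≥ 3`. There are `δ > 0`, `α ≥ 1`, `β ≥ 0` such that Philippon's inequality
holds with the constants `B = n`, `α`, `β` and every `ε ≥ 0` for all compressible pairs `x ≠ 0`, `y`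
(`IsCompressiblePair`). -/
theorem result (S : Finset ℕ) (hS : ∀ p ∈ S, p.Prime) (q : ℕ) (b : Fin q → ℕ) (hb : ∀ i, 2 ≤ b i)
    (z : ℕ) (B : ℤ) (hB : 0 ≤ B) (r : ℕ) (e : Fin r → ℕ) (he : ∀ i, 1 ≤ e i) (A : ℝ) (hA : 0 ≤ A)
    (n : ℕ) (hn : 3 ≤ n) :
    ∃ δ α β : ℝ, 0 < δ ∧ 1 ≤ α ∧ 0 ≤ β ∧ ∀ x y : ℚ, x ≠ 0 → y ≠ 0 → x * y ^ n ≠ -1 →
      IsCompressiblePair S b z B A δ n e x y → ∀ ε : ℝ, 0 ≤ ε → Holds n α β ε x y := by
  classical
  obtain ⟨Γ, hΓ, hΓS⟩ := Pool.Agent.K3h2.LA.exists_gamma S hS
  obtain ⟨C, hC⟩ := Pool.Agent.K3h2.PA.height_le r n hn e he q b hb z B hB Γ hΓ A A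
    (Real.log (max A 1)) hA hA (Real.log_nonneg (le_max_right _ _))
  obtain ⟨C3, hC3⟩ : ∃ C3 : ℝ, C3 = max C 1 := ⟨_, rfl⟩
  have hC31 : 1 ≤ C3 := by
    rw [hC3]
    exact le_max_right _ _
  have hC3C : C ≤ C3 := by
    rw [hC3]
    exact le_max_left _ _
  have hC30 : 0 < C3 := by linarith
  have hnR : (3 : ℝ) ≤ n := by exact_mod_cast hn
  have hrA : 0 ≤ (r : ℝ) * A := by positivity
  refine ⟨1 / C3, 1 + C3 * (1 + r * A), 1, by positivity, ?_, zero_le_one, ?_⟩
  · have : 0 ≤ C3 * (1 + r * A) := by positivity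
    linarith
  intro x y hx hy hxy ⟨⟨gu, cu, wu, hgu, hcu, hwu, hu⟩, ⟨gv, cv, wv, hgv, hcv, hwv, hv⟩,
    n₀, w, Z, hn0, hw, hZ, hnum, hZR⟩ ε hε
  have hxy' : x * y ^ n + 1 ≠ 0 := fun h => hxy (by linarith)
  choose gZ cZ wZ hgZ hcZ hwZ hZZ using hZ
  unfold Holds
  rw [lhs_eq hxy']
  obtain ⟨R, hR⟩ : ∃ R : ℝ, R = ∑ p ∈ (x * y ^ n + 1).num.natAbs.primeFactors,
    Real.log (p : ℝ) := ⟨_, rfl⟩
  have hR0 : 0 ≤ R := by
    rw [hR]
    exact Finset.sum_nonneg fun p _ => Real.log_natCast_nonneg _
  rw [← hR] at hZR ⊢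
  have htriv := num_le hx hy n hxy'
  obtain ⟨hX, hhX⟩ : ∃ t : ℝ, t = Real.log (H x) := ⟨_, rfl⟩
  obtain ⟨hY, hhY⟩ : ∃ t : ℝ, t = Real.log (H y) := ⟨_, rfl⟩
  have hX0 : 0 ≤ hX := by
    rw [hhX]
    exact Pool.Agent.K3h2.PA.ht_nonneg x
  have hY0 : 0 ≤ hY := by
    rw [hhY]
    exact Pool.Agent.K3h2.PA.ht_nonneg y
  have hlog2 : Real.log 2 ≤ 1 := by
    have := Real.log_two_lt_d9
    linarith
  have hHy : 0 < H y := lt_of_lt_of_le one_pos (Pool.Agent.K3h2.PA.one_le_max_den y)
  have hpow : H y ^ (1 / C3) = Real.exp (hY / C3) := by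
    rw [Real.rpow_def_of_pos hHy, ← hhY]
    congr 1
    ring
  have key : Real.log |((x * y ^ n + 1).num : ℝ)| ≤
      (1 + C3 * (1 + r * A)) * n * hX + n * ((1 + C3 * (1 + r * A)) * n) * (1 + R) := by
    have hnn : (1 : ℝ) ≤ n * n := by nlinarith
    have hα : 1 ≤ 1 + C3 * (1 + r * A) := by
      have : 0 ≤ C3 * (1 + r * A) := by positivity
      linarith
    have h9 : n * C3 * (1 + r * A) + 1 ≤ n * ((1 + C3 * (1 + r * A)) * n) := by
      have h10 : 0 ≤ C3 * (1 + r * A) := by positivity
      have h11 : n * (C3 * (1 + r * A)) ≤ n * (C3 * (1 + r * A)) * n := by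
        refine le_mul_of_one_le_right (by positivity) (by linarith)
      nlinarith
    rcases le_or_gt hX (Real.log (max A 1) + hY / C3) with hcase | hcase
    · have h3 := hC ⟨x, y, n₀, w, Z, fun p => Sum.elim ![wu, wv] wZ p.1 p.2⟩ hx hy hxy'
        (by
          obtain ⟨g, hg, hgw⟩ := hΓS (w : ℚ) hw
          exact ⟨g, hg, hgw.symm⟩) hnum
        (by
          intro s
          have key2 : ∀ (t : ℚ) (g : Fin q → ℚ) (c w : Fin q → ℤ), (∀ i, IsSUnit S (g i)) →
              (∀ i, |(c i : ℝ)| ≤ A * H y ^ (1 / C3)) → t = ∑ i, g i * (c i * w i) →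
              Pool.Agent.K3h2.LA.Dec Γ
                (A * Real.exp (Pool.Agent.K3h2.PA.ht y / max C 1)) w t := by
            intro t g c w hg hc ht
            choose u hu hug using fun i => hΓS (g i) (hg i)
            refine ⟨u, c, hu, fun i => ?_, ht.trans
              (Finset.sum_congr rfl fun i _ => by rw [hug i])⟩
            refine (hc i).trans (le_of_eq ?_)
            rw [hpow, ← hC3, hhY]
            rfl
          rcases s with j | j
          · fin_cases j
            · exact key2 _ gu cu wu hgu hcu hu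
            · exact key2 _ gv cv wv hgv hcv (by
                have e1 : (((y.den : ℤ) : ℤ) : ℚ) = (y.den : ℚ) := by simp
                change (((y.den : ℤ) : ℤ) : ℚ) = _
                rw [e1]
                exact hv)
          · exact key2 _ (gZ j) (cZ j) (wZ j) (hgZ j) (hcZ j) (hZZ j))
        (by
          rintro ⟨s, i⟩
          have e1 : Real.log (H y) = Pool.Agent.K3h2.PA.ht y := rfl
          rcases s with j | j
          · fin_cases j
            · exact hwu i
            · exact hwv i
          · exact hwZ j i)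
        (by
          change Real.log (H x) ≤ Real.log (max A 1) + Real.log (H y) / max C 1
          rw [← hC3, ← hhX, ← hhY]
          exact hcase)
        (by
          change Real.log |(n₀ : ℝ)| ≤ Real.log (max A 1) + Real.log (H y) / max C 1
          rw [← hC3, ← hhY]
          have hn00 : n₀ ≠ 0 := by
            rintro rfl
            have := Rat.num_ne_zero.2 hxy'
            rw [hnum] at this
            simp at this
          have e1 : |(n₀ : ℝ)| ≤ max A 1 * Real.exp (hY / C3) := by
            refine hn0.trans ?_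
            rw [hpow]
            exact mul_le_mul_of_nonneg_right (le_max_left _ _) (Real.exp_pos _).le
          have e2 := Real.log_le_log (abs_pos.2 (by exact_mod_cast hn00)) e1
          rwa [Real.log_mul (lt_of_lt_of_le one_pos (le_max_right _ _)).ne'
            (Real.exp_pos _).ne', Real.log_exp] at e2)
      have h4 : hY ≤ C * (1 + ∑ i, Real.log |(Z i : ℝ)|) := by
        rw [hhY]
        exact h3
      have h5 : ∑ i, Real.log |(Z i : ℝ)| ≤ r * A * (1 + R) := by
        calc ∑ i, Real.log |(Z i : ℝ)| ≤ ∑ _i : Fin r, A * (1 + R) :=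
              Finset.sum_le_sum fun i _ => hZR i
          _ = r * A * (1 + R) := by
              rw [Finset.sum_const, Finset.card_univ, Fintype.card_fin, nsmul_eq_mul]
              ring
      have h6 : 0 ≤ ∑ i, Real.log |(Z i : ℝ)| :=
        Finset.sum_nonneg fun i _ => Pool.Agent.R343.LT.log_abs_nonneg _
      have h7 : hY ≤ C3 * (1 + r * A) * (1 + R) := by
        calc hY ≤ C3 * (1 + ∑ i, Real.log |(Z i : ℝ)|) :=
              h4.trans (mul_le_mul_of_nonneg_right hC3C (by linarith))
          _ ≤ C3 * (1 + r * A * (1 + R)) := mul_le_mul_of_nonneg_left (by linarith) hC30.le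
          _ ≤ C3 * (1 + r * A) * (1 + R) := by
              have := mul_nonneg hC30.le hR0
              nlinarith
      have h8 : n * hY ≤ n * (C3 * (1 + r * A) * (1 + R)) :=
        mul_le_mul_of_nonneg_left h7 (by linarith)
      have h12 : hX ≤ (1 + C3 * (1 + r * A)) * n * hX := by
        refine le_mul_of_one_le_left hX0 ?_
        nlinarith
      have h13 : (n * C3 * (1 + r * A) + 1) * (1 + R) ≤
          n * ((1 + C3 * (1 + r * A)) * n) * (1 + R) :=
        mul_le_mul_of_nonneg_right h9 (by linarith)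
      rw [← hhX, ← hhY] at htriv
      nlinarith
    · have h3 : hY ≤ C3 * hX := by
        have e1 : hY / C3 ≤ hX := by
          have := Real.log_nonneg (le_max_right A 1)
          linarith
        rw [div_le_iff₀ hC30] at e1
        linarith
      have h4 : n * hY ≤ n * (C3 * hX) := mul_le_mul_of_nonneg_left h3 (by linarith)
      have h5 : hX + n * (C3 * hX) ≤ (1 + C3 * (1 + r * A)) * n * hX := by
        have e1 : 0 ≤ C3 * (r * A) * n * hX := by positivity
        have e2 : hX ≤ n * hX := le_mul_of_one_le_left hX0 (by linarith)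
        nlinarith
      have h6 : 1 ≤ n * ((1 + C3 * (1 + r * A)) * n) * (1 + R) := by
        have e1 : 1 ≤ n * ((1 + C3 * (1 + r * A)) * n) := by
          have : 0 ≤ n * C3 * (1 + r * A) := by positivity
          linarith
        nlinarith
      rw [← hhX, ← hhY] at htriv
      linarith
  rw [← hhX, ← hhY]
  have h1 : 0 ≤ ε * n * hY := by positivity
  have h2 : 0 ≤ n * ε * (1 + R) := by positivity
  nlinarith

end Pool.Agent.Results.MP_05f553_nt.CompressiblePairs
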