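import Mathlib
import Pool.Agent.K3h42.RP.Rat
import Pool.Agent.K3h42.RP.Indep

/-!
# Philippon's inequality for the pairs composed of the primes of a random infinite set

Let `S` be a random set of primes which contains all primes of a finite set `T` with probability at most
`C A ^ |T| ∏ p ^ (-θ)`, for instance because the primes are chosen independently with probabilities
`min (1, A p ^ (-θ))` (such a set is infinite if `θ ≤ 1`). For every `ε > 0` there is `θ₀ < 2 / 3` such
that, if `θ > θ₀`, almost surely there is ONE number `β` such that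

* `log |num (z + 1)| ≤ (1 + ε) (β + ∑ log p)`, the sum over the primes dividing `num (z + 1)`, for ALL
  rational numbers `z ≠ 0, -1` such that `z` and `z + 1` are composed of primes of `S`;
* Philippon's inequality holds for ALL `x, y` such that `x y ^ B` and `x y ^ B + 1` are composed of
  primes of `S`, with this `β` and ALL constants `B ≥ 1`, `α`, `ε' ≥ 0` with
  `1 + ε ≤ B (α B + ε')`: all those of Q1 with `B ≥ 2` (if `ε ≤ 3`), and those with `B = 1` and
  `α + ε' ≥ 1 + ε`.

For all rational numbers the inequality is false for `B ≤ 2` and for `B = 3`, `α + ε' ≤ 4 / 3`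
(`SmallB`, `AdmissibleConstants`), and for no constants it is known.

If `θ > 2 / 3`, there are almost surely only finitely many such `z`, since the number of the `z` for which
the radical of `num z · den z · num (z + 1)` is at most `X` is `X ^ (2 / 3 + o (1))`; for `θ < 2 / 3` one
expects infinitely many (if `2` is in `S`). The proof uses the theorem of the starting library that only
`O (X ^ (2 / 3 - ν))` of them, of all heights, violate `c < rad (abc) ^ M`, `M > 1 / 3`, and the lemma of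
Borel and Cantelli.
-/

set_option autoImplicit false

namespace Pool.Agent.Results.MP_05f553_nt.RandomPrimes

open MeasureTheory ProbabilityTheory

/-- The logarithmic height `log max (|a|, |b|)` of `r = a / b` (lowest terms). -/
noncomputable def height (r : ℚ) : ℝ := Real.log (max |((r.num : ℤ) : ℝ)| ((r.den : ℕ) : ℝ))

/-- The inequality of Q1 for the pair `(x, y)`; the sums are over the primes which divide the
numerator of `x y ^ B + 1`. -/
def Holds (B : ℕ) (α β ε : ℝ) (x y : ℚ) : Prop :=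
  -(∑ p ∈ (x * y ^ B + 1).num.natAbs.primeFactors,
      Real.log ((padicNorm p (x * y ^ B + 1) : ℚ) : ℝ))
    ≤ α * (B : ℝ) * height x + ε * (B : ℝ) * height y
      + (B : ℝ) * (α * (B : ℝ) + ε) *
          (β + ∑ p ∈ (x * y ^ B + 1).num.natAbs.primeFactors, Real.log (p : ℝ))

/-- `z` is composed of primes of `S`: all primes dividing its numerator or its denominator are in `S`. -/
def Composed (S : Set ℕ) (z : ℚ) : Prop :=
  ∀ p : ℕ, p.Prime → p ∣ z.num.natAbs ∨ p ∣ z.den → p ∈ S

/-- All primes of the finite set `T` are in the random set `S` with probability at most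
`C A ^ |T| ∏ p ^ (-θ)`. -/
def Sparse {Ω : Type} [MeasurableSpace Ω] (P : Measure Ω) (S : Ω → Set ℕ) (θ A C : ℝ) : Prop :=
  ∀ T : Finset ℕ, (∀ p ∈ T, p.Prime) →
    P {ω | (T : Set ℕ) ⊆ S ω} ≤ ENNReal.ofReal (C * ∏ p ∈ T, (A * (p : ℝ) ^ (-θ)))

/-- the left side of the inequality is the logarithm of the numerator -/
lemma lhs_eq {t : ℚ} (ht : t ≠ 0) :
    -(∑ p ∈ t.num.natAbs.primeFactors, Real.log ((padicNorm p t : ℚ) : ℝ)) =
      Real.log (t.num.natAbs : ℝ) := by
  have hn : t.num.natAbs ≠ 0 := Int.natAbs_ne_zero.2 (Rat.num_ne_zero.2 ht)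
  rw [Real.log_nat_eq_sum_factorization, Finsupp.sum, Nat.support_factorization,
    ← Finset.sum_neg_distrib]
  refine Finset.sum_congr rfl fun p hp => ?_
  have hpp : p.Prime := Nat.prime_of_mem_primeFactors hp
  have : Fact p.Prime := ⟨hpp⟩
  have hdvd : p ∣ t.num.natAbs := Nat.dvd_of_mem_primeFactors hp
  have hden : ¬ p ∣ t.den := fun h =>
    (Nat.Prime.coprime_iff_not_dvd hpp).1 (Nat.Coprime.coprime_dvd_left hdvd t.reduced) h
  have h2 : padicValRat p t = (t.num.natAbs.factorization p : ℤ) := by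
    rw [padicValRat, padicValInt, padicValNat.eq_zero_of_not_dvd hden, Nat.cast_zero, sub_zero,
      Nat.factorization_def _ hpp]
  rw [padicNorm.eq_zpow_of_nonzero ht, h2]
  push_cast
  rw [zpow_neg, Real.log_inv, neg_neg, zpow_natCast, Real.log_pow]

/-- **Philippon's inequality for the pairs composed of the primes of a random set.** -/
theorem result (ε : ℝ) (hε : 0 < ε) : ∃ θ₀ : ℝ, θ₀ < 2 / 3 ∧ ∀ θ : ℝ, θ₀ < θ →
    (∀ (Ω : Type) [MeasurableSpace Ω] (P : Measure Ω) (S : Ω → Set ℕ) (A C : ℝ), 0 ≤ A →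
      Sparse P S θ A C → ∀ᵐ ω ∂P, ∃ β : ℝ, 0 ≤ β ∧
        (∀ z : ℚ, z ≠ 0 → z ≠ -1 → Composed (S ω) z → Composed (S ω) (z + 1) →
          Real.log |((z + 1).num : ℝ)| ≤
            (1 + ε) * (β + ∑ p ∈ (z + 1).num.natAbs.primeFactors, Real.log (p : ℝ))) ∧
        ∀ (B : ℕ) (α ε' : ℝ), 1 ≤ B → 0 ≤ α → 0 ≤ ε' → 1 + ε ≤ B * (α * B + ε') →
          ∀ x y : ℚ, x ≠ 0 → y ≠ 0 → x * y ^ B ≠ -1 → Composed (S ω) (x * y ^ B) →
            Composed (S ω) (x * y ^ B + 1) → Holds B α β ε' x y) ∧
    ∀ (Ω : Type) [MeasurableSpace Ω] (P : Measure Ω) [IsProbabilityMeasure P] (S : Ω → Set ℕ)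
      (A : ℝ), 1 ≤ A → (∀ p : ℕ, MeasurableSet {ω | p ∈ S ω}) →
      iIndepSet (fun p : ℕ => {ω | p ∈ S ω}) P →
      (∀ p : ℕ, p.Prime → P {ω | p ∈ S ω} = ENNReal.ofReal (min 1 (A * (p : ℝ) ^ (-θ)))) →
      Sparse P S θ A 1 ∧ (θ ≤ 1 → ∀ᵐ ω ∂P, (S ω).Infinite) := by
  obtain ⟨θ₀, h1, h2, h3⟩ := Pool.Agent.K3h42.RP.rat_core hε
  refine ⟨θ₀, h2, fun θ hθ => ⟨fun Ω _ P S A C hA hS => ?_, fun Ω _ P _ S A hA hm hi hp => ?_⟩⟩
  · filter_upwards [h3 θ hθ P S A C hA hS] with ω hω
    obtain ⟨β, hβ, h⟩ := hω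
    have key : ∀ z : ℚ, z ≠ 0 → z ≠ -1 → Composed (S ω) z → Composed (S ω) (z + 1) →
          Real.log ((z + 1).num.natAbs : ℝ) ≤
            (1 + ε) * (β + ∑ p ∈ (z + 1).num.natAbs.primeFactors, Real.log (p : ℝ)) := by
      intro z hz0 hz1 hc hc1
      refine h z hz0 hz1 fun p hp hdvd => ?_
      rcases (Nat.Prime.dvd_mul hp).1 hdvd with h4 | h4
      · exact hc p hp ((Nat.Prime.dvd_mul hp).1 h4)
      · exact hc1 p hp (Or.inl h4)
    refine ⟨β, hβ, fun z hz0 hz1 hc hc1 => ?_, fun B α ε' hB hα hε' hcond x y hx hy hxy hc hc1 => ?_⟩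
    · have h4 : |((z + 1).num : ℝ)| = ((z + 1).num.natAbs : ℝ) := by
        rw [Nat.cast_natAbs, Int.cast_abs]
      rw [h4]
      exact key z hz0 hz1 hc hc1
    · have hz0 : x * y ^ B ≠ 0 := mul_ne_zero hx (pow_ne_zero _ hy)
      have hz1 : x * y ^ B + 1 ≠ 0 := fun h => hxy (eq_neg_of_add_eq_zero_left h)
      have h4 := key _ hz0 hxy hc hc1
      unfold Holds
      rw [lhs_eq hz1]
      have hrn : 0 ≤ ∑ p ∈ (x * y ^ B + 1).num.natAbs.primeFactors, Real.log (p : ℝ) :=
        Finset.sum_nonneg fun p _ => Real.log_natCast_nonneg _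
      have hh : ∀ r : ℚ, 0 ≤ height r := fun r =>
        Real.log_nonneg (le_max_of_le_right (by exact_mod_cast r.pos))
      have h5 := mul_le_mul_of_nonneg_right hcond (add_nonneg hβ hrn)
      have h6 : 0 ≤ α * (B : ℝ) * height x := mul_nonneg (by positivity) (hh x)
      have h7 : 0 ≤ ε' * (B : ℝ) * height y := mul_nonneg (by positivity) (hh y)
      linarith
  · refine ⟨Pool.Agent.K3h42.RP.sparse_of_indep (by linarith) hm hi fun p hpp => ?_, fun hθ1 => ?_⟩
    · rw [hp p hpp]
      exact ENNReal.ofReal_le_ofReal (min_le_right _ _)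
    · refine Pool.Agent.K3h42.RP.infinite_of_indep hθ1 hm hi fun p hpp => ?_
      rw [hp p hpp]
      refine ENNReal.ofReal_le_ofReal (le_min ?_ ?_)
      · exact Real.rpow_le_one_of_one_le_of_nonpos (by exact_mod_cast hpp.one_le) (by linarith)
      · exact le_mul_of_one_le_left (by positivity) hA

end Pool.Agent.Results.MP_05f553_nt.RandomPrimes
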